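import Pool.Agent.X247.Hp.Run

/-!
# The homomorphism problem: certificates
-/

set_option autoImplicit false

namespace Pool.Agent.X247.Hp

open FreeGroup hiding map_mul map_one map_inv

variable {m k r : ℕ}

/-- equal, or in the list -/
def NP (N : List (St m k r × St m k r)) (p q : St m k r) : Prop := p = q ∨ (p, q) ∈ N

/-- the next letter -/
def hd (p : St m k r) : Option (Fin r × Bool) := p.2.2.2.head?

/-- the state after reading the next letter -/
def tl (p : St m k r) : St m k r := (p.1, p.2.1, p.2.2.1, p.2.2.2.tail)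

/-- the inverse letter -/
def inv1 (a : Fin r × Bool) : Fin r × Bool := (a.1, !a.2)

variable (nx : Fin k → Fin m × Bool → Fin k) (em : Fin k → Fin m × Bool → Wd r)
  (x : List (Wd m × GW))

/-- a valid certificate -/
structure Valid {G : Type*} [Group G] (gg : ℕ → G) (i f : St m k r) (D : List (St m k r))
    (N : List (St m k r × St m k r)) (U : List (St m k r × St m k r × GW)) : Prop where
  di : i ∈ D
  df : f ∈ D
  ds : ∀ p ∈ D, ∀ s ∈ succs nx em x p, s.2 ∈ D
  dt : ∀ p ∈ D, tl p ∈ D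
  n1 : ∀ p ∈ D, ∀ s ∈ succs nx em x p, ∀ q ∈ D, ¬ NP N s.2 q ∨ NP N p q
  n2 : ∀ p ∈ D, ∀ p2 ∈ D, ∀ q ∈ D, hd p = none ∨ (hd p).map inv1 ≠ hd p2 ∨
    ¬ NP N (tl p) p2 ∨ ¬ NP N (tl p2) q ∨ NP N p q
  u0 : ∃ e ∈ U, e.1 = i ∧ e.2.1 = f ∧ ev gg e.2.2 = 1
  u1 : ∀ e ∈ U, e.1 ≠ e.2.1 ∨ ev gg e.2.2 = 1
  u2 : ∀ e ∈ U, ∀ s ∈ succs nx em x e.1, ¬ NP N s.2 e.2.1 ∨
    ∃ e' ∈ U, e'.1 = s.2 ∧ e'.2.1 = e.2.1 ∧ ev gg e.2.2 = ev gg (s.1 ++ e'.2.2)
  u3 : ∀ e ∈ U, ∀ p2 ∈ D, hd e.1 = none ∨ (hd e.1).map inv1 ≠ hd p2 ∨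
    ¬ NP N (tl e.1) p2 ∨ ¬ NP N (tl p2) e.2.1 ∨
    ∃ e1 ∈ U, ∃ e2 ∈ U, e1.1 = tl e.1 ∧ e1.2.1 = p2 ∧ e2.1 = tl p2 ∧ e2.2.1 = e.2.1 ∧
      ev gg e.2.2 = ev gg (e1.2.2 ++ e2.2.2)

variable {nx em x}

theorem sound_aux {G : Type*} [Group G] {gg : ℕ → G} {i f : St m k r} {D : List (St m k r)}
    {N : List (St m k r × St m k r)} {U : List (St m k r × St m k r × GW)}
    (hV : Valid nx em x gg i f D N U) {p q : St m k r} {g : GW} (h : Nl nx em x p q g) :
    p ∈ D → q ∈ D ∧ NP N p q ∧ ∀ e ∈ U, e.1 = p → e.2.1 = q → ev gg e.2.2 = ev gg g := by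
  induction h with
  | nil p =>
    intro hp
    refine ⟨hp, Or.inl rfl, fun e he h1 h2 => ?_⟩
    rcases hV.u1 e he with h3 | h3
    · exact absurd (h1.trans h2.symm) h3
    · rw [h3, ev_nil]
  | @eps p p' q g g' hs _ ih =>
    intro hp
    obtain ⟨h1, h2, h3⟩ := ih (hV.ds p hp _ hs)
    refine ⟨h1, (hV.n1 p hp _ hs q h1).resolve_left (fun h => h h2), fun e he h4 h5 => ?_⟩
    obtain ⟨e', he', h6, h7, h8⟩ := (hV.u2 e he (g, p') (by rw [h4]; exact hs)).resolve_left
      (fun h => h (by rw [h5]; exact h2))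
    rw [h8, ev_append, ev_append, h3 e' he' h6 (h7.trans h5)]
  | @canc b c l a w b' c' l' w' q g1 g2 _ _ ih1 ih2 =>
    intro hp
    obtain ⟨h1, h2, h3⟩ := ih1 (hV.dt _ hp)
    obtain ⟨h4, h5, h6⟩ := ih2 (hV.dt _ h1)
    refine ⟨h4, ?_, fun e he h7 h8 => ?_⟩
    · rcases hV.n2 _ hp _ h1 _ h4 with h | h | h | h | h
      · simp [hd] at h
      · exact absurd rfl h
      · exact absurd h2 h
      · exact absurd h5 h
      · exact h
    · rcases hV.u3 e he _ h1 with h | h | h | h | h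
      · rw [h7] at h
        simp [hd] at h
      · rw [h7] at h
        exact absurd rfl h
      · rw [h7] at h
        exact absurd h2 h
      · rw [h8] at h
        exact absurd h5 h
      · obtain ⟨e1, he1, e2, he2, a1, a2, a3, a4, a5⟩ := h
        rw [a5, ev_append, ev_append, h3 e1 he1 (by rw [a1, h7]; rfl) a2,
          h6 e2 he2 a3 (a4.trans h8)]

/-- Certificates are sound. -/
theorem sound {G : Type*} [Group G] {gg : ℕ → G} {i f : St m k r} {D : List (St m k r)}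
    {N : List (St m k r × St m k r)} {U : List (St m k r × St m k r × GW)}
    (hV : Valid nx em x gg i f D N U) (g : GW) (h : Nl nx em x i f g) : ev gg g = 1 := by
  obtain ⟨e, he, h1, h2, h3⟩ := hV.u0
  rw [← (sound_aux hV h hV.di).2.2 e he h1 h2, h3]

theorem nl_canc {p p2 q : St m k r} {g1 g2 : GW} (h1 : hd p ≠ none)
    (h2 : (hd p).map inv1 = hd p2) (h3 : Nl nx em x (tl p) p2 g1)
    (h4 : Nl nx em x (tl p2) q g2) : Nl nx em x p q (g1 ++ g2) := by
  obtain ⟨b, c, l, w⟩ := p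
  obtain ⟨b', c', l', w'⟩ := p2
  cases w with
  | nil => exact absurd rfl h1
  | cons a w =>
    cases w' with
    | nil => simp [hd] at h2
    | cons a' w' =>
      simp only [hd, List.head?_cons, Option.map_some, Option.some.injEq] at h2
      subst h2
      exact Nl.canc h3 h4

/-- the pair is used in a run from `i` to `f` -/
def Useful (nx : Fin k → Fin m × Bool → Fin k) (em : Fin k → Fin m × Bool → Wd r)
    (x : List (Wd m × GW)) (i f p q : St m k r) : Prop :=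
  ∃ c1 c2 : GW, ∀ w, Nl nx em x p q w → Nl nx em x i f (c1 ++ w ++ c2)

theorem useful_unique {G : Type*} [Group G] {gg : ℕ → G} {i f p q : St m k r}
    (h : ∀ g, Nl nx em x i f g → ev gg g = 1) (hu : Useful nx em x i f p q) {w w' : GW}
    (h1 : Nl nx em x p q w) (h2 : Nl nx em x p q w') : ev gg w = ev gg w' := by
  obtain ⟨c1, c2, hc⟩ := hu
  have e1 := h _ (hc w h1)
  have e2 := h _ (hc w' h2)
  rw [ev_append, ev_append] at e1 e2
  have := e1.trans e2.symm
  exact mul_left_cancel (mul_right_cancel this)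

/-- Certificates exist. -/
theorem complete {G : Type*} [Group G] {gg : ℕ → G} {i f : St m k r} {D : List (St m k r)}
    (di : i ∈ D) (df : f ∈ D) (ds : ∀ p ∈ D, ∀ s ∈ succs nx em x p, s.2 ∈ D)
    (dt : ∀ p ∈ D, tl p ∈ D) (hne : ∃ g, Nl nx em x i f g)
    (h : ∀ g, Nl nx em x i f g → ev gg g = 1) :
    ∃ (N : List (St m k r × St m k r)) (U : List (St m k r × St m k r × GW)),
      Valid nx em x gg i f D N U := by
  classical
  obtain ⟨N, hN⟩ : ∃ N : List (St m k r × St m k r), ∀ p q, (p, q) ∈ N ↔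
      p ∈ D ∧ q ∈ D ∧ ∃ g, Nl nx em x p q g := by
    refine ⟨((D.toFinset ×ˢ D.toFinset).filter fun pq => ∃ g, Nl nx em x pq.1 pq.2 g).toList,
      fun p q => ?_⟩
    rw [Finset.mem_toList, Finset.mem_filter, Finset.mem_product, List.mem_toFinset,
      List.mem_toFinset]
    tauto
  have hNP : ∀ p q, p ∈ D → q ∈ D → (NP N p q ↔ ∃ g, Nl nx em x p q g) := by
    intro p q hp hq
    unfold NP
    rw [hN]
    constructor
    · rintro (rfl | h)
      · exact ⟨[], Nl.nil _⟩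
      · exact h.2.2
    · intro h
      exact Or.inr ⟨hp, hq, h⟩
  have hgo : ∃ gO : St m k r → St m k r → GW, ∀ p q, (∃ g, Nl nx em x p q g) →
      Nl nx em x p q (gO p q) := by
    refine ⟨fun p q => if h : ∃ g, Nl nx em x p q g then h.choose else [], fun p q h => ?_⟩
    simp only
    rw [dif_pos h]
    exact h.choose_spec
  obtain ⟨gO, hgO⟩ := hgo
  obtain ⟨U, hU⟩ : ∃ U : List (St m k r × St m k r × GW), ∀ e, e ∈ U ↔
      e.1 ∈ D ∧ e.2.1 ∈ D ∧ (∃ g, Nl nx em x e.1 e.2.1 g) ∧ Useful nx em x i f e.1 e.2.1 ∧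
        e.2.2 = gO e.1 e.2.1 := by
    refine ⟨(((D.toFinset ×ˢ D.toFinset).filter fun pq => (∃ g, Nl nx em x pq.1 pq.2 g) ∧
      Useful nx em x i f pq.1 pq.2).image fun pq => (pq.1, pq.2, gO pq.1 pq.2)).toList,
      fun e => ?_⟩
    obtain ⟨p, q, w⟩ := e
    rw [Finset.mem_toList, Finset.mem_image]
    constructor
    · rintro ⟨⟨p', q'⟩, h1, h2⟩
      rw [Finset.mem_filter, Finset.mem_product, List.mem_toFinset, List.mem_toFinset] at h1
      simp only [Prod.mk.injEq] at h2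
      obtain ⟨rfl, rfl, rfl⟩ := h2
      exact ⟨h1.1.1, h1.1.2, h1.2.1, h1.2.2, rfl⟩
    · rintro ⟨h1, h2, h3, h4, h5⟩
      refine ⟨(p, q), ?_, ?_⟩
      · rw [Finset.mem_filter, Finset.mem_product, List.mem_toFinset, List.mem_toFinset]
        exact ⟨⟨h1, h2⟩, h3, h4⟩
      · simp only at h5
        rw [h5]
  have hUi : (i, f, gO i f) ∈ U := by
    rw [hU]
    exact ⟨di, df, hne, ⟨[], [], fun w hw => by simpa using hw⟩, rfl⟩
  refine ⟨N, U, di, df, ds, dt, ?_, ?_, ?_, ?_, ?_, ?_⟩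
  · intro p hp s hs q hq
    by_cases h1 : NP N s.2 q
    · right
      rw [hNP _ _ (ds p hp s hs) hq] at h1
      obtain ⟨g, h1⟩ := h1
      rw [hNP _ _ hp hq]
      exact ⟨s.1 ++ g, Nl.eps (p' := s.2) hs h1⟩
    · exact Or.inl h1
  · intro p hp p2 hp2 q hq
    by_cases h0 : hd p = none
    · exact Or.inl h0
    right
    by_cases h1 : (hd p).map inv1 = hd p2
    swap
    · exact Or.inl h1
    right
    by_cases h2 : NP N (tl p) p2
    swap
    · exact Or.inl h2
    right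
    by_cases h3 : NP N (tl p2) q
    swap
    · exact Or.inl h3
    right
    rw [hNP _ _ (dt p hp) hp2] at h2
    rw [hNP _ _ (dt p2 hp2) hq] at h3
    obtain ⟨g1, h2⟩ := h2
    obtain ⟨g2, h3⟩ := h3
    rw [hNP _ _ hp hq]
    exact ⟨_, nl_canc h0 h1 h2 h3⟩
  · exact ⟨_, hUi, rfl, rfl, h _ (hgO _ _ hne)⟩
  · intro e he
    by_cases h1 : e.1 = e.2.1
    · right
      obtain ⟨_, _, h2, h3, h4⟩ := (hU e).1 he
      have h5 := hgO _ _ h2
      rw [← h4] at h5
      have h6 : Nl nx em x e.1 e.2.1 [] := by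
        rw [← h1]
        exact Nl.nil _
      rw [useful_unique h h3 h5 h6, ev_nil]
    · exact Or.inl h1
  · intro e he s hs
    obtain ⟨h1, h2, h3, h4, h5⟩ := (hU e).1 he
    by_cases h6 : NP N s.2 e.2.1
    · right
      rw [hNP _ _ (ds _ h1 s hs) h2] at h6
      refine ⟨(s.2, e.2.1, gO s.2 e.2.1), ?_, rfl, rfl, ?_⟩
      · rw [hU]
        refine ⟨ds _ h1 s hs, h2, h6, ?_, rfl⟩
        obtain ⟨c1, c2, hc⟩ := h4
        refine ⟨c1 ++ s.1, c2, fun w hw => ?_⟩
        have := hc _ (Nl.eps (p' := s.2) hs hw)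
        simpa [List.append_assoc] using this
      · refine useful_unique h h4 ?_ (Nl.eps (p' := s.2) hs (hgO _ _ h6))
        rw [h5]
        exact hgO _ _ h3
    · exact Or.inl h6
  · intro e he p2 hp2
    obtain ⟨a1, a2, a3, a4, a5⟩ := (hU e).1 he
    by_cases h0 : hd e.1 = none
    · exact Or.inl h0
    right
    by_cases h1 : (hd e.1).map inv1 = hd p2
    swap
    · exact Or.inl h1
    right
    by_cases h2 : NP N (tl e.1) p2
    swap
    · exact Or.inl h2
    right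
    by_cases h3 : NP N (tl p2) e.2.1
    swap
    · exact Or.inl h3
    right
    rw [hNP _ _ (dt _ a1) hp2] at h2
    rw [hNP _ _ (dt p2 hp2) a2] at h3
    have g1 := hgO _ _ h2
    have g2 := hgO _ _ h3
    refine ⟨(tl e.1, p2, gO (tl e.1) p2), ?_, (tl p2, e.2.1, gO (tl p2) e.2.1), ?_, rfl, rfl, rfl,
      rfl, ?_⟩
    · rw [hU]
      refine ⟨dt _ a1, hp2, h2, ?_, rfl⟩
      obtain ⟨c1, c2, hc⟩ := a4
      refine ⟨c1, gO (tl p2) e.2.1 ++ c2, fun w hw => ?_⟩
      have := hc _ (nl_canc h0 h1 hw g2)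
      simpa [List.append_assoc] using this
    · rw [hU]
      refine ⟨dt _ hp2, a2, h3, ?_, rfl⟩
      obtain ⟨c1, c2, hc⟩ := a4
      refine ⟨c1 ++ gO (tl e.1) p2, c2, fun w hw => ?_⟩
      have := hc _ (nl_canc h0 h1 g1 hw)
      simpa [List.append_assoc] using this
    · refine useful_unique h a4 ?_ (nl_canc h0 h1 g1 g2)
      rw [a5]
      exact hgO _ _ a3

/-- A finite closed set of states. -/
theorem exists_closed (nx : Fin k → Fin m × Bool → Fin k) (em : Fin k → Fin m × Bool → Wd r)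
    (x : List (Wd m × GW)) (c0 : Fin k) : ∃ D : List (St m k r),
    (false, c0, [], []) ∈ D ∧ (true, c0, [], []) ∈ D ∧
      (∀ p ∈ D, ∀ s ∈ succs nx em x p, s.2 ∈ D) ∧ ∀ p ∈ D, tl p ∈ D := by
  classical
  obtain ⟨Ls, hLs⟩ : ∃ Ls : Finset (Wd m), ∀ l, l ∈ Ls ↔ l = [] ∨ ∃ e ∈ x, l <:+ e.1 ∨
      l <:+ invRev e.1 := by
    refine ⟨insert [] (x.toFinset.biUnion fun e => e.1.tails.toFinset ∪
      (invRev e.1).tails.toFinset), fun l => ?_⟩
    simp
  obtain ⟨Ws, hWs⟩ : ∃ Ws : Finset (Wd r), ∀ w, w ∈ Ws ↔ w = [] ∨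
      ∃ c a, w <:+ em c a := by
    refine ⟨insert [] (Finset.univ.biUnion fun ca : Fin k × (Fin m × Bool) =>
      (em ca.1 ca.2).tails.toFinset), fun w => ?_⟩
    simp only [Finset.mem_insert, Finset.mem_biUnion, Finset.mem_univ, true_and,
      List.mem_toFinset, List.mem_tails, Prod.exists]
  obtain ⟨D, hD⟩ : ∃ D : List (St m k r), ∀ p : St m k r, p ∈ D ↔ p.2.2.1 ∈ Ls ∧ p.2.2.2 ∈ Ws := by
    refine ⟨((Finset.univ : Finset Bool) ×ˢ ((Finset.univ : Finset (Fin k)) ×ˢ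
      (Ls ×ˢ Ws))).toList, fun p => ?_⟩
    simp [Finset.mem_product]
  have hL0 : ([] : Wd m) ∈ Ls := (hLs _).2 (Or.inl rfl)
  have hW0 : ([] : Wd r) ∈ Ws := (hWs _).2 (Or.inl rfl)
  refine ⟨D, (hD _).2 ⟨hL0, hW0⟩, (hD _).2 ⟨hL0, hW0⟩, ?_, ?_⟩
  · rintro ⟨b, c, l, w⟩ hp ⟨g, p'⟩ hs
    rw [hD] at hp ⊢
    simp only at hp
    unfold succs at hs
    simp only at hs
    cases w with
    | cons a w => simp at hs
    | nil =>
      cases l with
      | cons a l =>
        simp only [List.mem_singleton, Prod.mk.injEq] at hs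
        obtain ⟨-, rfl⟩ := hs
        refine ⟨?_, (hWs _).2 (Or.inr ⟨_, _, List.suffix_refl _⟩)⟩
        rcases (hLs _).1 hp.1 with h | ⟨e, he, h⟩
        · simp at h
        · refine (hLs _).2 (Or.inr ⟨e, he, ?_⟩)
          rcases h with h | h
          · exact Or.inl ((List.suffix_cons a l).trans h)
          · exact Or.inr ((List.suffix_cons a l).trans h)
      | nil =>
        cases b with
        | true =>
          simp only [if_true, List.mem_map, Prod.mk.injEq] at hs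
          obtain ⟨e, he, -, rfl⟩ := hs
          exact ⟨(hLs _).2 (Or.inr ⟨e, he, Or.inr (List.suffix_refl _)⟩), hW0⟩
        | false =>
          simp only [Bool.false_eq_true, if_false, List.mem_cons, List.mem_map,
            Prod.mk.injEq] at hs
          rcases hs with ⟨-, rfl⟩ | ⟨e, he, -, rfl⟩
          · exact ⟨hL0, hW0⟩
          · exact ⟨(hLs _).2 (Or.inr ⟨e, he, Or.inl (List.suffix_refl _)⟩), hW0⟩
  · rintro ⟨b, c, l, w⟩ hp
    rw [hD] at hp ⊢
    refine ⟨hp.1, ?_⟩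
    simp only [tl] at hp ⊢
    rcases (hWs _).1 hp.2 with h | ⟨c', a, h⟩
    · rw [h]; exact hW0
    · exact (hWs _).2 (Or.inr ⟨c', a, (List.tail_suffix w).trans h⟩)

/-- The trivial runs all have trivial output if and only if there is a valid certificate. -/
theorem cert_iff {G : Type*} [Group G] (gg : ℕ → G) (nx : Fin k → Fin m × Bool → Fin k)
    (em : Fin k → Fin m × Bool → Wd r) (x : List (Wd m × GW)) (c0 : Fin k) :
    (∀ g, Nl nx em x (false, c0, [], []) (true, c0, [], []) g → ev gg g = 1) ↔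
      ∃ C : List (St m k r) × List (St m k r × St m k r) × List (St m k r × St m k r × GW),
        Valid nx em x gg (false, c0, [], []) (true, c0, [], []) C.1 C.2.1 C.2.2 := by
  constructor
  · intro h
    obtain ⟨D, h1, h2, h3, h4⟩ := exists_closed nx em x c0
    have hne : ∃ g, Nl nx em x (false, c0, [], []) (true, c0, [], []) g :=
      ⟨[] ++ [], Nl.eps (p' := (true, c0, [], [])) (by simp [succs]) (Nl.nil _)⟩
    obtain ⟨N, U, hV⟩ := complete h1 h2 h3 h4 hne h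
    exact ⟨(D, N, U), hV⟩
  · rintro ⟨C, hV⟩ g hg
    exact sound hV g hg

end Pool.Agent.X247.Hp
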