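import Pool.Agent.X247.Hp.Cert
import Pool.Agent.Helper446.RE

/-!
# The homomorphism problem: the certificates can be recognised
-/

set_option autoImplicit false
set_option synthInstance.maxSize 4000

namespace Pool.Agent.X247.Hp

open FreeGroup hiding map_mul map_one map_inv
open Pool.Agent.Helper446

variable {m k r : ℕ}

theorem primrec_invRev {α : Type*} [Primcodable α] :
    Primrec (fun w : List (α × Bool) => invRev w) := by
  have h : Primrec fun w : List (α × Bool) => (w.map fun g => (g.1, !g.2)).reverse := by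
    refine Primrec.list_reverse.comp (Primrec.list_map Primrec.id ?_)
    exact (Primrec.fst.comp Primrec.snd).pair (Primrec.not.comp (Primrec.snd.comp Primrec.snd))
  exact h

theorem primrec_hd : Primrec (hd : St m k r → Option (Fin r × Bool)) :=
  Primrec.list_head?.comp (Primrec.snd.comp (Primrec.snd.comp Primrec.snd))

theorem primrec_tl : Primrec (tl : St m k r → St m k r) :=
  Primrec.fst.pair ((Primrec.fst.comp Primrec.snd).pair
    ((Primrec.fst.comp (Primrec.snd.comp Primrec.snd)).pair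
      (Primrec.list_tail.comp (Primrec.snd.comp (Primrec.snd.comp Primrec.snd)))))

theorem primrec_inv1 : Primrec (inv1 : Fin r × Bool → Fin r × Bool) :=
  Primrec.fst.pair (Primrec.not.comp Primrec.snd)

theorem primrec_succs (nx : Fin k → Fin m × Bool → Fin k) (em : Fin k → Fin m × Bool → Wd r) :
    Primrec fun z : List (Wd m × GW) × St m k r => succs nx em z.1 z.2 := by
  have hnx : Primrec fun y : Fin k × (Fin m × Bool) => nx y.1 y.2 := Primrec.dom_finite _
  have hem : Primrec fun y : Fin k × (Fin m × Bool) => em y.1 y.2 := Primrec.dom_finite _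
  have h1 : Primrec fun z : List (Wd m × GW) × St m k r => z.2.1 := Primrec.fst.comp Primrec.snd
  have h2 : Primrec fun z : List (Wd m × GW) × St m k r => z.2.2.1 :=
    Primrec.fst.comp (Primrec.snd.comp Primrec.snd)
  have h3 : Primrec fun z : List (Wd m × GW) × St m k r => z.2.2.2.1 :=
    Primrec.fst.comp (Primrec.snd.comp (Primrec.snd.comp Primrec.snd))
  have h4 : Primrec fun z : List (Wd m × GW) × St m k r => z.2.2.2.2 :=
    Primrec.snd.comp (Primrec.snd.comp (Primrec.snd.comp Primrec.snd))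
  have ht : Primrec fun z : List (Wd m × GW) × St m k r =>
      z.1.map fun e => (invRev e.2, ((true, z.2.2.1, invRev e.1, []) : St m k r)) := by
    refine Primrec.list_map Primrec.fst ?_
    refine (primrec_invRev.comp (Primrec.snd.comp Primrec.snd)).pair ?_
    refine (Primrec.const true).pair ((h2.comp Primrec.fst).pair ?_)
    exact (primrec_invRev.comp (Primrec.fst.comp Primrec.snd)).pair (Primrec.const [])
  have hf : Primrec fun z : List (Wd m × GW) × St m k r =>
      (([], (true, z.2.2.1, [], [])) :: z.1.map fun e =>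
        (e.2, ((false, z.2.2.1, e.1, []) : St m k r)) : List (GW × St m k r)) := by
    refine Primrec.list_cons.comp ?_ (Primrec.list_map Primrec.fst ?_)
    · exact (Primrec.const []).pair ((Primrec.const true).pair (h2.pair (Primrec.const ([], []))))
    · refine (Primrec.snd.comp Primrec.snd).pair ((Primrec.const false).pair
        ((h2.comp Primrec.fst).pair ((Primrec.fst.comp Primrec.snd).pair (Primrec.const []))))
  have hi : Primrec fun z : List (Wd m × GW) × St m k r =>
      if z.2.1 = true then z.1.map fun e => (invRev e.2, ((true, z.2.2.1, invRev e.1, []) : St m k r))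
        else (([], (true, z.2.2.1, [], [])) :: z.1.map fun e =>
        (e.2, ((false, z.2.2.1, e.1, []) : St m k r)) : List (GW × St m k r)) :=
    Primrec.ite (Primrec.eq.comp h1 (Primrec.const true)) ht hf
  have hs : Primrec₂ fun (z : List (Wd m × GW) × St m k r) (y : (Fin m × Bool) × Wd m) =>
      ([([], (z.2.1, nx z.2.2.1 y.1, y.2, em z.2.2.1 y.1))] : List (GW × St m k r)) := by
    refine Primrec.list_cons.comp ?_ (Primrec.const [])
    refine (Primrec.const []).pair ((h1.comp Primrec.fst).pair ?_)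
    have h5 : Primrec fun q : (List (Wd m × GW) × St m k r) × ((Fin m × Bool) × Wd m) =>
        (q.1.2.2.1, q.2.1) := (h2.comp Primrec.fst).pair (Primrec.fst.comp Primrec.snd)
    exact (hnx.comp h5).pair ((Primrec.snd.comp Primrec.snd).pair (hem.comp h5))
  have hl := Primrec.list_casesOn h3 hi hs
  have hz : Primrec₂ fun (z : List (Wd m × GW) × St m k r) (y : (Fin r × Bool) × Wd r) =>
      ([] : List (GW × St m k r)) := Primrec.const []
  have hw := Primrec.list_casesOn h4 hl hz
  refine hw.of_eq fun z => ?_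
  obtain ⟨x, b, c, l, w⟩ := z
  cases w with
  | cons a w => rfl
  | nil => cases l <;> rfl

/-! ### Recursive enumerability -/

section re

variable {α : Type*} [Primcodable α]

theorem re_np {f g : α → St m k r} {N : α → List (St m k r × St m k r)} (hf : Computable f)
    (hg : Computable g) (hN : Computable N) : REPred fun a => NP (N a) (f a) (g a) :=
  RE.or (RE.eq hf hg) (RE.mem_list (hf.pair hg) hN)

theorem re_nnp {f g : α → St m k r} {N : α → List (St m k r × St m k r)} (hf : Computable f)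
    (hg : Computable g) (hN : Computable N) : REPred fun a => ¬ NP (N a) (f a) (g a) := by
  refine (RE.and (RE.ne hf hg) (RE.not_mem_list (hf.pair hg) hN)).of_eq fun a => ?_
  unfold NP
  rw [not_or]

theorem cp_ev {G : Type*} [Group G] {gg : ℕ → G} (hwp : ComputablePred fun w : GW => ev gg w = 1)
    {u v : α → GW} (hu : Computable u) (hv : Computable v) :
    ComputablePred fun a => ev gg (u a) = ev gg (v a) := by
  have h1 := RE.cp_comp hwp (Computable.list_append.comp hu (primrec_invRev.to_comp.comp hv))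
  refine h1.of_eq fun a => ?_
  rw [ev_append, ev_invRev, mul_inv_eq_one]

theorem re_ev {G : Type*} [Group G] {gg : ℕ → G} (hwp : ComputablePred fun w : GW => ev gg w = 1)
    {u v : α → GW} (hu : Computable u) (hv : Computable v) :
    REPred fun a => ev gg (u a) = ev gg (v a) := (cp_ev hwp hu hv).to_re

theorem re_nev {G : Type*} [Group G] {gg : ℕ → G} (hwp : ComputablePred fun w : GW => ev gg w = 1)
    {u v : α → GW} (hu : Computable u) (hv : Computable v) :
    REPred fun a => ¬ ev gg (u a) = ev gg (v a) := (cp_ev hwp hu hv).not.to_re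

/-- the input with a certificate -/
abbrev Z (m k r : ℕ) := List (Wd m × GW) ×
  (List (St m k r) × List (St m k r × St m k r) × List (St m k r × St m k r × GW))

theorem cx : Computable fun z : Z m k r => z.1 := Computable.fst

theorem cD : Computable fun z : Z m k r => z.2.1 := Computable.fst.comp Computable.snd

theorem cN : Computable fun z : Z m k r => z.2.2.1 :=
  Computable.fst.comp (Computable.snd.comp Computable.snd)

theorem cU : Computable fun z : Z m k r => z.2.2.2 :=
  Computable.snd.comp (Computable.snd.comp Computable.snd)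

variable (nx : Fin k → Fin m × Bool → Fin k) (em : Fin k → Fin m × Bool → Wd r)

theorem c_succs {x : α → List (Wd m × GW)} {p : α → St m k r} (hx : Computable x)
    (hp : Computable p) : Computable fun a => succs nx em (x a) (p a) :=
  (primrec_succs nx em).to_comp.comp (hx.pair hp)

theorem re_ds : REPred fun z : Z m k r => ∀ p ∈ z.2.1, ∀ s ∈ succs nx em z.1 p, s.2 ∈ z.2.1 := by
  refine RE.all_mem (p := fun (z : Z m k r) (p : St m k r) =>
    ∀ s ∈ succs nx em z.1 p, s.2 ∈ z.2.1) ?_ cD
  refine RE.all_mem (p := fun (y : Z m k r × St m k r) (s : GW × St m k r) => s.2 ∈ y.1.2.1) ?_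
    (c_succs nx em (cx.comp Computable.fst) Computable.snd)
  exact RE.mem_list (Computable.snd.comp Computable.snd)
    (cD.comp (Computable.fst.comp Computable.fst))

theorem re_dt : REPred fun z : Z m k r => ∀ p ∈ z.2.1, tl p ∈ z.2.1 := by
  refine RE.all_mem (p := fun (z : Z m k r) (p : St m k r) => tl p ∈ z.2.1) ?_ cD
  exact RE.mem_list (primrec_tl.to_comp.comp Computable.snd) (cD.comp Computable.fst)

theorem re_n1 : REPred fun z : Z m k r => ∀ p ∈ z.2.1, ∀ s ∈ succs nx em z.1 p, ∀ q ∈ z.2.1,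
    ¬ NP z.2.2.1 s.2 q ∨ NP z.2.2.1 p q := by
  refine RE.all_mem (p := fun (z : Z m k r) (p : St m k r) =>
    ∀ s ∈ succs nx em z.1 p, ∀ q ∈ z.2.1, ¬ NP z.2.2.1 s.2 q ∨ NP z.2.2.1 p q) ?_ cD
  refine RE.all_mem (p := fun (y : Z m k r × St m k r) (s : GW × St m k r) =>
    ∀ q ∈ y.1.2.1, ¬ NP y.1.2.2.1 s.2 q ∨ NP y.1.2.2.1 y.2 q) ?_
    (c_succs nx em (cx.comp Computable.fst) Computable.snd)
  refine RE.all_mem (p := fun (y : (Z m k r × St m k r) × (GW × St m k r)) (q : St m k r) =>
    ¬ NP y.1.1.2.2.1 y.2.2 q ∨ NP y.1.1.2.2.1 y.1.2 q) ?_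
    (cD.comp (Computable.fst.comp Computable.fst))
  have hN : Computable fun y : ((Z m k r × St m k r) × (GW × St m k r)) × St m k r =>
      y.1.1.1.2.2.1 := cN.comp (Computable.fst.comp (Computable.fst.comp Computable.fst))
  refine RE.or (re_nnp ?_ Computable.snd hN) (re_np ?_ Computable.snd hN)
  · exact Computable.snd.comp (Computable.snd.comp Computable.fst)
  · exact Computable.snd.comp (Computable.fst.comp Computable.fst)

theorem re_n2 : REPred fun z : Z m k r => ∀ p ∈ z.2.1, ∀ p2 ∈ z.2.1, ∀ q ∈ z.2.1,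
    hd p = none ∨ (hd p).map inv1 ≠ hd p2 ∨
    ¬ NP z.2.2.1 (tl p) p2 ∨ ¬ NP z.2.2.1 (tl p2) q ∨ NP z.2.2.1 p q := by
  refine RE.all_mem (p := fun (z : Z m k r) (p : St m k r) => ∀ p2 ∈ z.2.1, ∀ q ∈ z.2.1,
    hd p = none ∨ (hd p).map inv1 ≠ hd p2 ∨
    ¬ NP z.2.2.1 (tl p) p2 ∨ ¬ NP z.2.2.1 (tl p2) q ∨ NP z.2.2.1 p q) ?_ cD
  refine RE.all_mem (p := fun (y : Z m k r × St m k r) (p2 : St m k r) => ∀ q ∈ y.1.2.1,
    hd y.2 = none ∨ (hd y.2).map inv1 ≠ hd p2 ∨
    ¬ NP y.1.2.2.1 (tl y.2) p2 ∨ ¬ NP y.1.2.2.1 (tl p2) q ∨ NP y.1.2.2.1 y.2 q) ?_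
    (cD.comp Computable.fst)
  refine RE.all_mem (p := fun (y : (Z m k r × St m k r) × St m k r) (q : St m k r) =>
    hd y.1.2 = none ∨ (hd y.1.2).map inv1 ≠ hd y.2 ∨
    ¬ NP y.1.1.2.2.1 (tl y.1.2) y.2 ∨ ¬ NP y.1.1.2.2.1 (tl y.2) q ∨ NP y.1.1.2.2.1 y.1.2 q) ?_
    (cD.comp (Computable.fst.comp Computable.fst))
  have hN : Computable fun y : ((Z m k r × St m k r) × St m k r) × St m k r =>
      y.1.1.1.2.2.1 := cN.comp (Computable.fst.comp (Computable.fst.comp Computable.fst))
  have hp : Computable fun y : ((Z m k r × St m k r) × St m k r) × St m k r => y.1.1.2 :=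
    Computable.snd.comp (Computable.fst.comp Computable.fst)
  have hp2 : Computable fun y : ((Z m k r × St m k r) × St m k r) × St m k r => y.1.2 :=
    Computable.snd.comp Computable.fst
  refine RE.or (RE.eq (primrec_hd.to_comp.comp hp) (Computable.const none)) (RE.or ?_
    (RE.or (re_nnp (primrec_tl.to_comp.comp hp) hp2 hN)
    (RE.or (re_nnp (primrec_tl.to_comp.comp hp2) Computable.snd hN)
      (re_np hp Computable.snd hN))))
  refine RE.ne ?_ (primrec_hd.to_comp.comp hp2)
  exact Computable.option_map (primrec_hd.to_comp.comp hp)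
    (primrec_inv1.to_comp.comp Computable.snd).to₂

theorem re_u0 {G : Type*} [Group G] {gg : ℕ → G}
    (hwp : ComputablePred fun w : GW => ev gg w = 1) (i f : St m k r) :
    REPred fun z : Z m k r => ∃ e ∈ z.2.2.2, e.1 = i ∧ e.2.1 = f ∧ ev gg e.2.2 = 1 := by
  refine RE.ex_mem (p := fun (z : Z m k r) (e : St m k r × St m k r × GW) =>
    e.1 = i ∧ e.2.1 = f ∧ ev gg e.2.2 = 1) ?_ cU
  refine RE.and (RE.eq (Computable.fst.comp Computable.snd) (Computable.const i)) (RE.and
    (RE.eq (Computable.fst.comp (Computable.snd.comp Computable.snd)) (Computable.const f)) ?_)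
  exact (RE.cp_comp hwp (Computable.snd.comp (Computable.snd.comp Computable.snd))).to_re

theorem re_u1 {G : Type*} [Group G] {gg : ℕ → G}
    (hwp : ComputablePred fun w : GW => ev gg w = 1) :
    REPred fun z : Z m k r => ∀ e ∈ z.2.2.2, e.1 ≠ e.2.1 ∨ ev gg e.2.2 = 1 := by
  refine RE.all_mem (p := fun (z : Z m k r) (e : St m k r × St m k r × GW) =>
    e.1 ≠ e.2.1 ∨ ev gg e.2.2 = 1) ?_ cU
  refine RE.or (RE.ne (Computable.fst.comp Computable.snd)
    (Computable.fst.comp (Computable.snd.comp Computable.snd))) ?_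
  exact (RE.cp_comp hwp (Computable.snd.comp (Computable.snd.comp Computable.snd))).to_re

theorem re_u2 {G : Type*} [Group G] {gg : ℕ → G}
    (hwp : ComputablePred fun w : GW => ev gg w = 1) :
    REPred fun z : Z m k r => ∀ e ∈ z.2.2.2, ∀ s ∈ succs nx em z.1 e.1,
      ¬ NP z.2.2.1 s.2 e.2.1 ∨
      ∃ e' ∈ z.2.2.2, e'.1 = s.2 ∧ e'.2.1 = e.2.1 ∧ ev gg e.2.2 = ev gg (s.1 ++ e'.2.2) := by
  refine RE.all_mem (p := fun (z : Z m k r) (e : St m k r × St m k r × GW) =>
    ∀ s ∈ succs nx em z.1 e.1, ¬ NP z.2.2.1 s.2 e.2.1 ∨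
      ∃ e' ∈ z.2.2.2, e'.1 = s.2 ∧ e'.2.1 = e.2.1 ∧ ev gg e.2.2 = ev gg (s.1 ++ e'.2.2)) ?_ cU
  refine RE.all_mem (p := fun (y : Z m k r × (St m k r × St m k r × GW)) (s : GW × St m k r) =>
    ¬ NP y.1.2.2.1 s.2 y.2.2.1 ∨
      ∃ e' ∈ y.1.2.2.2, e'.1 = s.2 ∧ e'.2.1 = y.2.2.1 ∧
        ev gg y.2.2.2 = ev gg (s.1 ++ e'.2.2)) ?_
    (c_succs nx em (cx.comp Computable.fst) (Computable.fst.comp Computable.snd))
  refine RE.or (re_nnp (Computable.snd.comp Computable.snd)
    (Computable.fst.comp (Computable.snd.comp (Computable.snd.comp Computable.fst)))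
    (cN.comp (Computable.fst.comp Computable.fst))) ?_
  refine RE.ex_mem (p := fun (y : (Z m k r × (St m k r × St m k r × GW)) × (GW × St m k r))
    (e' : St m k r × St m k r × GW) => e'.1 = y.2.2 ∧ e'.2.1 = y.1.2.2.1 ∧
        ev gg y.1.2.2.2 = ev gg (y.2.1 ++ e'.2.2)) ?_
    (cU.comp (Computable.fst.comp Computable.fst))
  refine RE.and (RE.eq (Computable.fst.comp Computable.snd)
    (Computable.snd.comp (Computable.snd.comp Computable.fst))) (RE.and
    (RE.eq (Computable.fst.comp (Computable.snd.comp Computable.snd))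
      (Computable.fst.comp (Computable.snd.comp (Computable.snd.comp
        (Computable.fst.comp Computable.fst))))) ?_)
  exact re_ev hwp (Computable.snd.comp (Computable.snd.comp (Computable.snd.comp
        (Computable.fst.comp Computable.fst))))
    (Computable.list_append.comp (Computable.fst.comp (Computable.snd.comp Computable.fst))
      (Computable.snd.comp (Computable.snd.comp Computable.snd)))

theorem re_u3 {G : Type*} [Group G] {gg : ℕ → G}
    (hwp : ComputablePred fun w : GW => ev gg w = 1) :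
    REPred fun z : Z m k r => ∀ e ∈ z.2.2.2, ∀ p2 ∈ z.2.1,
      hd e.1 = none ∨ (hd e.1).map inv1 ≠ hd p2 ∨
      ¬ NP z.2.2.1 (tl e.1) p2 ∨ ¬ NP z.2.2.1 (tl p2) e.2.1 ∨
      ∃ e1 ∈ z.2.2.2, ∃ e2 ∈ z.2.2.2, e1.1 = tl e.1 ∧ e1.2.1 = p2 ∧ e2.1 = tl p2 ∧
        e2.2.1 = e.2.1 ∧ ev gg e.2.2 = ev gg (e1.2.2 ++ e2.2.2) := by
  refine RE.all_mem (p := fun (z : Z m k r) (e : St m k r × St m k r × GW) => ∀ p2 ∈ z.2.1,
      hd e.1 = none ∨ (hd e.1).map inv1 ≠ hd p2 ∨
      ¬ NP z.2.2.1 (tl e.1) p2 ∨ ¬ NP z.2.2.1 (tl p2) e.2.1 ∨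
      ∃ e1 ∈ z.2.2.2, ∃ e2 ∈ z.2.2.2, e1.1 = tl e.1 ∧ e1.2.1 = p2 ∧ e2.1 = tl p2 ∧
        e2.2.1 = e.2.1 ∧ ev gg e.2.2 = ev gg (e1.2.2 ++ e2.2.2)) ?_ cU
  refine RE.all_mem (p := fun (y : Z m k r × (St m k r × St m k r × GW)) (p2 : St m k r) =>
      hd y.2.1 = none ∨ (hd y.2.1).map inv1 ≠ hd p2 ∨
      ¬ NP y.1.2.2.1 (tl y.2.1) p2 ∨ ¬ NP y.1.2.2.1 (tl p2) y.2.2.1 ∨
      ∃ e1 ∈ y.1.2.2.2, ∃ e2 ∈ y.1.2.2.2, e1.1 = tl y.2.1 ∧ e1.2.1 = p2 ∧ e2.1 = tl p2 ∧
        e2.2.1 = y.2.2.1 ∧ ev gg y.2.2.2 = ev gg (e1.2.2 ++ e2.2.2)) ?_ (cD.comp Computable.fst)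
  have he1 : Computable fun y : (Z m k r × (St m k r × St m k r × GW)) × St m k r => y.1.2.1 :=
    Computable.fst.comp (Computable.snd.comp Computable.fst)
  have he2 : Computable fun y : (Z m k r × (St m k r × St m k r × GW)) × St m k r => y.1.2.2.1 :=
    Computable.fst.comp (Computable.snd.comp (Computable.snd.comp Computable.fst))
  have he3 : Computable fun y : (Z m k r × (St m k r × St m k r × GW)) × St m k r => y.1.2.2.2 :=
    Computable.snd.comp (Computable.snd.comp (Computable.snd.comp Computable.fst))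
  have hN : Computable fun y : (Z m k r × (St m k r × St m k r × GW)) × St m k r =>
      y.1.1.2.2.1 := cN.comp (Computable.fst.comp Computable.fst)
  have hU : Computable fun y : (Z m k r × (St m k r × St m k r × GW)) × St m k r =>
      y.1.1.2.2.2 := cU.comp (Computable.fst.comp Computable.fst)
  refine RE.or (RE.eq (primrec_hd.to_comp.comp he1) (Computable.const none)) (RE.or ?_
    (RE.or (re_nnp (primrec_tl.to_comp.comp he1) Computable.snd hN)
    (RE.or (re_nnp (primrec_tl.to_comp.comp Computable.snd) he2 hN) ?_)))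
  · refine RE.ne ?_ (primrec_hd.to_comp.comp Computable.snd)
    exact Computable.option_map (primrec_hd.to_comp.comp he1)
      (primrec_inv1.to_comp.comp Computable.snd).to₂
  · refine RE.ex_mem (p := fun (y : (Z m k r × (St m k r × St m k r × GW)) × St m k r)
      (e1 : St m k r × St m k r × GW) => ∃ e2 ∈ y.1.1.2.2.2, e1.1 = tl y.1.2.1 ∧ e1.2.1 = y.2 ∧
        e2.1 = tl y.2 ∧ e2.2.1 = y.1.2.2.1 ∧ ev gg y.1.2.2.2 = ev gg (e1.2.2 ++ e2.2.2)) ?_ hU
    refine RE.ex_mem (p := fun (w : ((Z m k r × (St m k r × St m k r × GW)) × St m k r) ×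
      (St m k r × St m k r × GW)) (e2 : St m k r × St m k r × GW) =>
        w.2.1 = tl w.1.1.2.1 ∧ w.2.2.1 = w.1.2 ∧
        e2.1 = tl w.1.2 ∧ e2.2.1 = w.1.1.2.2.1 ∧
          ev gg w.1.1.2.2.2 = ev gg (w.2.2.2 ++ e2.2.2)) ?_ (hU.comp Computable.fst)
    have a1 : Computable fun w : (((Z m k r × (St m k r × St m k r × GW)) × St m k r) ×
      (St m k r × St m k r × GW)) × (St m k r × St m k r × GW) => w.1.1 :=
      Computable.fst.comp Computable.fst
    have a2 : Computable fun w : (((Z m k r × (St m k r × St m k r × GW)) × St m k r) ×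
      (St m k r × St m k r × GW)) × (St m k r × St m k r × GW) => w.1.2 :=
      Computable.snd.comp Computable.fst
    refine RE.and (RE.eq (Computable.fst.comp a2) (primrec_tl.to_comp.comp (he1.comp a1)))
      (RE.and (RE.eq (Computable.fst.comp (Computable.snd.comp a2)) (Computable.snd.comp a1))
      (RE.and (RE.eq (Computable.fst.comp Computable.snd)
        (primrec_tl.to_comp.comp (Computable.snd.comp a1)))
      (RE.and (RE.eq (Computable.fst.comp (Computable.snd.comp Computable.snd)) (he2.comp a1))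
      (re_ev hwp (he3.comp a1) (Computable.list_append.comp
        (Computable.snd.comp (Computable.snd.comp a2))
        (Computable.snd.comp (Computable.snd.comp Computable.snd)))))))

/-- The valid certificates can be enumerated. -/
theorem re_valid {G : Type*} [Group G] {gg : ℕ → G}
    (hwp : ComputablePred fun w : GW => ev gg w = 1) (i f : St m k r) :
    REPred fun z : Z m k r => Valid nx em z.1 gg i f z.2.1 z.2.2.1 z.2.2.2 := by
  have h := RE.and (RE.mem_list (Computable.const i) (cD (m := m) (k := k) (r := r)))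
    (RE.and (RE.mem_list (Computable.const f) cD) (RE.and (re_ds nx em) (RE.and re_dt
      (RE.and (re_n1 nx em) (RE.and re_n2 (RE.and (re_u0 hwp i f) (RE.and (re_u1 hwp)
        (RE.and (re_u2 nx em hwp) (re_u3 hwp)))))))))
  refine h.of_eq fun z => ?_
  constructor
  · rintro ⟨h1, h2, h3, h4, h5, h6, h7, h8, h9, h10⟩
    exact ⟨h1, h2, h3, h4, h5, h6, h7, h8, h9, h10⟩
  · rintro ⟨h1, h2, h3, h4, h5, h6, h7, h8, h9, h10⟩
    exact ⟨h1, h2, h3, h4, h5, h6, h7, h8, h9, h10⟩

theorem re_nl {G : Type*} [Group G] {gg : ℕ → G}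
    (hwp : ComputablePred fun w : GW => ev gg w = 1) (c0 : Fin k) :
    REPred fun x : List (Wd m × GW) =>
      ∀ g, Nl nx em x (false, c0, [], []) (true, c0, [], []) g → ev gg g = 1 := by
  have h := RE.ex (p := fun (x : List (Wd m × GW)) (C : List (St m k r) ×
    List (St m k r × St m k r) × List (St m k r × St m k r × GW)) =>
      Valid nx em x gg (false, c0, [], []) (true, c0, [], []) C.1 C.2.1 C.2.2)
      (re_valid nx em hwp _ _)
  exact h.of_eq fun x => (cert_iff gg nx em x c0).symm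

end re

end Pool.Agent.X247.Hp
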