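import Mathlib

/-!
# The homomorphism problem for submonoids of virtually free groups: the automaton
-/

set_option autoImplicit false

namespace Pool.Agent.X247.Hp

open FreeGroup hiding map_mul map_one map_inv

/-! ### Cancellation -/

theorem red_single {α : Type*} {y : α × Bool} {L : List (α × Bool)} (h : Red L [y]) :
    ∃ L1 L2, L = L1 ++ y :: L2 ∧ Red L1 [] ∧ Red L2 [] := by
  induction h using Relation.ReflTransGen.head_induction_on with
  | refl => exact ⟨[], [], rfl, Red.refl, Red.refl⟩
  | head h1 _ ih =>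
    obtain ⟨L1, L2, h2, h3, h4⟩ := ih
    cases h1 with
    | @not A B z b =>
      rcases List.append_eq_append_iff.1 h2 with ⟨C, h5, h6⟩ | ⟨C, h5, h6⟩
      · refine ⟨A ++ (z, b) :: (z, !b) :: C, L2, by rw [h6]; simp, ?_, h4⟩
        exact Relation.ReflTransGen.head Red.Step.not (by rw [← h5]; exact h3)
      · cases C with
        | nil =>
          rw [List.append_nil] at h5
          rw [List.nil_append] at h6
          refine ⟨A ++ [(z, b), (z, !b)], L2, by rw [← h6]; simp, ?_, h4⟩
          refine Relation.ReflTransGen.head (b := A ++ []) Red.Step.not ?_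
          rw [List.append_nil, h5]
          exact h3
        | cons c C =>
          rw [List.cons_append, List.cons.injEq] at h6
          obtain ⟨rfl, h7⟩ := h6
          refine ⟨L1, C ++ (z, b) :: (z, !b) :: B, by rw [h5]; simp, h3, ?_⟩
          exact Relation.ReflTransGen.head Red.Step.not (by rw [← h7]; exact h4)

theorem red_cons {α : Type*} {a : α × Bool} {L : List (α × Bool)} (h : Red (a :: L) []) :
    ∃ L1 L2, L = L1 ++ (a.1, !a.2) :: L2 ∧ Red L1 [] ∧ Red L2 [] := by
  obtain ⟨x, b⟩ := a
  exact red_single (Red.cons_nil_iff_singleton.1 h)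

theorem red_of_mk {α : Type*} {L : List (α × Bool)} (h : mk L = 1) : Red L [] := by
  rw [one_eq_mk, Red.exact] at h
  obtain ⟨c, h1, h2⟩ := h
  rwa [Red.nil_iff.1 h2] at h1

/-! ### The automaton -/

variable {m k r : ℕ}

/-- letters with sign -/
abbrev Wd (n : ℕ) := List (Fin n × Bool)

/-- words over the generators of the target group -/
abbrev GW := List (ℕ × Bool)

/-- states: the side, the coset, the generators still to be read, the letters still to be read -/
abbrev St (m k r : ℕ) := Bool × Fin k × Wd m × Wd r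

variable (nx : Fin k → Fin m × Bool → Fin k) (em : Fin k → Fin m × Bool → Wd r)
  (x : List (Wd m × GW))

/-- the silent transitions from a state, with their outputs -/
def succs (p : St m k r) : List (GW × St m k r) :=
  match p.2.2.2 with
  | _ :: _ => []
  | [] => match p.2.2.1 with
    | h :: l => [([], (p.1, nx p.2.1 h, l, em p.2.1 h))]
    | [] => if p.1 = true then x.map fun e => (invRev e.2, (true, p.2.1, invRev e.1, []))
        else ([], (true, p.2.1, [], [])) :: x.map fun e => (e.2, (false, p.2.1, e.1, []))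

/-- runs from a state to a state, with the word read and the output -/
inductive Run : St m k r → Wd r → GW → St m k r → Prop
  | nil (p : St m k r) : Run p [] [] p
  | eps {p p' q : St m k r} {L : Wd r} {g g' : GW} : (g, p') ∈ succs nx em x p →
      Run p' L g' q → Run p L (g ++ g') q
  | read {b : Bool} {c : Fin k} {l : Wd m} {a : Fin r × Bool} {w : Wd r} {q : St m k r}
      {L : Wd r} {g : GW} : Run (b, c, l, w) L g q → Run (b, c, l, a :: w) (a :: L) g q

/-- runs whose word is trivial in the free group -/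
inductive Nl : St m k r → St m k r → GW → Prop
  | nil (p : St m k r) : Nl p p []
  | eps {p p' q : St m k r} {g g' : GW} : (g, p') ∈ succs nx em x p → Nl p' q g' →
      Nl p q (g ++ g')
  | canc {b : Bool} {c : Fin k} {l : Wd m} {a : Fin r × Bool} {w : Wd r} {b' : Bool} {c' : Fin k}
      {l' : Wd m} {w' : Wd r} {q : St m k r} {g1 g2 : GW} :
      Nl (b, c, l, w) (b', c', l', (a.1, !a.2) :: w') g1 → Nl (b', c', l', w') q g2 →
      Nl (b, c, l, a :: w) q (g1 ++ g2)

variable {nx em x}

theorem Run.trans {p q s : St m k r} {L1 L2 : Wd r} {g1 g2 : GW} (h1 : Run nx em x p L1 g1 q)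
    (h2 : Run nx em x q L2 g2 s) : Run nx em x p (L1 ++ L2) (g1 ++ g2) s := by
  induction h1 with
  | nil => exact h2
  | eps h _ ih => rw [List.append_assoc]; exact Run.eps h (ih h2)
  | read _ ih => exact Run.read (ih h2)

theorem run_split {p q : St m k r} {L : Wd r} {g : GW} (h : Run nx em x p L g q) :
    ∀ (L1 L2 : Wd r) (a : Fin r × Bool), L = L1 ++ a :: L2 →
      ∃ (b : Bool) (c : Fin k) (l : Wd m) (w : Wd r) (g1 g2 : GW), g = g1 ++ g2 ∧
        Run nx em x p L1 g1 (b, c, l, a :: w) ∧ Run nx em x (b, c, l, w) L2 g2 q := by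
  induction h with
  | nil p =>
    intro L1 L2 a h
    cases L1 <;> simp at h
  | eps h _ ih =>
    intro L1 L2 a hL
    obtain ⟨b, c, l, w, g1, g2, h1, h2, h3⟩ := ih L1 L2 a hL
    exact ⟨b, c, l, w, _ ++ g1, g2, by rw [h1, List.append_assoc], Run.eps h h2, h3⟩
  | @read b c l a' w q L g h ih =>
    intro L1 L2 a hL
    cases L1 with
    | nil =>
      rw [List.nil_append, List.cons.injEq] at hL
      obtain ⟨rfl, rfl⟩ := hL
      exact ⟨b, c, l, w, [], g, rfl, Run.nil _, h⟩
    | cons a1 L1 =>
      rw [List.cons_append, List.cons.injEq] at hL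
      obtain ⟨rfl, hL⟩ := hL
      obtain ⟨b', c', l', w', g1, g2, h1, h2, h3⟩ := ih L1 L2 a hL
      exact ⟨b', c', l', w', g1, g2, h1, Run.read h2, h3⟩

theorem nl_of_run : ∀ (n : ℕ) (p : St m k r) (L : Wd r) (g : GW) (q : St m k r), L.length ≤ n →
    Run nx em x p L g q → Red L [] → Nl nx em x p q g := by
  intro n
  induction n with
  | zero =>
    intro p L g q hL h _
    induction h with
    | nil p => exact Nl.nil p
    | eps h _ ih => exact Nl.eps h (ih hL (by assumption))
    | read _ _ => simp at hL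
  | succ n IH =>
    intro p L g q hL h hred
    induction h with
    | nil p => exact Nl.nil p
    | eps h _ ih => exact Nl.eps h (ih hL hred)
    | @read b c l a w q L g h _ =>
      obtain ⟨L1, L2, h1, h2, h3⟩ := red_cons hred
      obtain ⟨b', c', l', w', g1, g2, h4, h5, h6⟩ := run_split h L1 L2 _ h1
      rw [h4]
      rw [h1] at hL
      simp only [List.length_cons, List.length_append] at hL
      exact Nl.canc (IH _ _ _ _ (by omega) h5 h2) (IH _ _ _ _ (by omega) h6 h3)

theorem run_of_nl {p q : St m k r} {g : GW} (h : Nl nx em x p q g) :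
    ∃ L, Run nx em x p L g q ∧ mk L = 1 := by
  induction h with
  | nil p => exact ⟨[], Run.nil p, rfl⟩
  | eps h _ ih =>
    obtain ⟨L, h1, h2⟩ := ih
    exact ⟨L, Run.eps h h1, h2⟩
  | @canc b c l a w b' c' l' w' q g1 g2 _ _ ih1 ih2 =>
    obtain ⟨L1, h1, h2⟩ := ih1
    obtain ⟨L2, h3, h4⟩ := ih2
    refine ⟨a :: (L1 ++ (a.1, !a.2) :: L2), Run.read (h1.trans (Run.read h3)), ?_⟩
    have e : mk (a :: (L1 ++ (a.1, !a.2) :: L2)) =
        mk [a] * (mk L1 * (mk [(a.1, !a.2)] * mk L2)) := by
      rw [mul_mk, mul_mk, mul_mk]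
      rfl
    have e2 : mk [(a.1, !a.2)] = (mk [a])⁻¹ := by
      rw [inv_mk]
      rfl
    rw [e, h2, h4, e2, one_mul, mul_one, mul_inv_cancel]

/-! ### Evaluation -/

section sem

variable {H G : Type*} [Group H] [Group G]

/-- the value of a word -/
def ev {K α : Type*} [Group K] (f : α → K) (w : List (α × Bool)) : K := lift f (mk w)

theorem ev_nil {K α : Type*} [Group K] (f : α → K) : ev f [] = 1 := by
  unfold ev
  rw [← one_eq_mk, map_one]

theorem ev_append {K α : Type*} [Group K] (f : α → K) (u v : List (α × Bool)) :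
    ev f (u ++ v) = ev f u * ev f v := by
  unfold ev
  rw [← mul_mk, map_mul]

theorem ev_cons {K α : Type*} [Group K] (f : α → K) (a : α × Bool) (v : List (α × Bool)) :
    ev f (a :: v) = ev f [a] * ev f v := ev_append f [a] v

theorem ev_invRev {K α : Type*} [Group K] (f : α → K) (u : List (α × Bool)) :
    ev f (invRev u) = (ev f u)⁻¹ := by
  unfold ev
  rw [← inv_mk, map_inv]

variable (hg : Fin m → H) (gg : ℕ → G) (x)

/-- the product of a list of pairs in the first group -/
def prH (u : List (Wd m × GW)) : H := (u.map fun e => ev hg e.1).prod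

/-- the product of a list of pairs in the second group -/
def prG (u : List (Wd m × GW)) : G := (u.map fun e => ev gg e.2).prod

/-- the values of the runs -/
inductive Y : Bool → Bool → H → G → Prop
  | refl (b : Bool) : Y b b 1 1
  | a {e : Wd m × GW} {b : Bool} {y : H} {z : G} : e ∈ x → Y false b y z →
      Y false b (ev hg e.1 * y) (ev gg e.2 * z)
  | s {b : Bool} {y : H} {z : G} : Y true b y z → Y false b y z
  | b {e : Wd m × GW} {b : Bool} {y : H} {z : G} : e ∈ x → Y true b y z →
      Y true b ((ev hg e.1)⁻¹ * y) ((ev gg e.2)⁻¹ * z)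

variable {hg gg x}

theorem Y_true {b : Bool} {y : H} {z : G} (h : Y x hg gg true b y z) :
    ∃ v, (∀ e ∈ v, e ∈ x) ∧ y = (prH hg v)⁻¹ ∧ z = (prG gg v)⁻¹ := by
  generalize hb : true = b0 at h
  induction h with
  | refl b => exact ⟨[], by simp, by simp [prH], by simp [prG]⟩
  | a _ _ _ => cases hb
  | s _ _ => cases hb
  | @b e b y z he h ih =>
    obtain ⟨v, h2, h3, h4⟩ := ih hb
    refine ⟨v ++ [e], ?_, ?_, ?_⟩
    · intro e' he'
      rw [List.mem_append, List.mem_singleton] at he'
      rcases he' with he' | rfl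
      · exact h2 _ he'
      · exact he
    · rw [h3]; simp [prH]
    · rw [h4]; simp [prG]

theorem Y_false {b : Bool} {y : H} {z : G} (h : Y x hg gg false b y z) (hb : b = true) :
    ∃ u v, (∀ e ∈ u, e ∈ x) ∧ (∀ e ∈ v, e ∈ x) ∧ y = prH hg u * (prH hg v)⁻¹ ∧
      z = prG gg u * (prG gg v)⁻¹ := by
  generalize hb0 : false = b0 at h
  induction h with
  | refl b => rw [hb] at hb0; cases hb0
  | @a e b y z he _ ih =>
    obtain ⟨u, v, h1, h2, h3, h4⟩ := ih hb hb0
    refine ⟨e :: u, v, ?_, h2, ?_, ?_⟩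
    · intro e' he'
      rcases List.mem_cons.1 he' with rfl | he'
      · exact he
      · exact h1 _ he'
    · rw [h3]; simp [prH, mul_assoc]
    · rw [h4]; simp [prG, mul_assoc]
  | s h _ =>
    obtain ⟨v, h2, h3, h4⟩ := Y_true h
    exact ⟨[], v, by simp, h2, by rw [h3]; simp [prH], by rw [h4]; simp [prG]⟩
  | b _ _ _ => cases hb0

variable (hg gg x)

/-- the data of a group with a free subgroup of finite index -/
structure VF (nx : Fin k → Fin m × Bool → Fin k) (em : Fin k → Fin m × Bool → Wd r)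
    (hg : Fin m → H) (c0 : Fin k) (ι : FreeGroup (Fin r) →* H) (t : Fin k → H) : Prop where
  inj : Function.Injective ι
  one : t c0 = 1
  step : ∀ c a, t c * ev hg [a] = ι (mk (em c a)) * t (nx c a)
  uniq : ∀ w c, ι w * t c = 1 → w = 1 ∧ c = c0

/-- the value of a state -/
def P (ι : FreeGroup (Fin r) →* H) (t : Fin k → H) (p : St m k r) : H :=
  ι (mk p.2.2.2) * t p.2.1 * ev hg p.2.2.1

variable {hg gg x}

theorem succs_sem {c0 : Fin k} {ι : FreeGroup (Fin r) →* H} {t : Fin k → H}
    (hV : VF nx em hg c0 ι t) {p p' : St m k r} {g : GW} (h : (g, p') ∈ succs nx em x p) {b : Bool}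
    {y : H} {z : G} (hY : Y x hg gg p'.1 b y z) :
    ∃ y', Y x hg gg p.1 b y' (ev gg g * z) ∧ P hg ι t p * y' = P hg ι t p' * y := by
  obtain ⟨b0, c, l, w⟩ := p
  unfold succs at h
  simp only at h
  cases w with
  | cons a w => simp at h
  | nil =>
    cases l with
    | cons a l =>
      simp only [List.mem_singleton, Prod.mk.injEq] at h
      obtain ⟨rfl, rfl⟩ := h
      refine ⟨y, ?_, ?_⟩
      · rw [ev_nil, one_mul]; exact hY
      · simp only [P]
        rw [ev_cons, ← one_eq_mk, map_one, one_mul, ← mul_assoc (t c), hV.step]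
    | nil =>
      cases b0 with
      | true =>
        simp only [if_true, List.mem_map, Prod.mk.injEq] at h
        obtain ⟨e, he, rfl, rfl⟩ := h
        refine ⟨(ev hg e.1)⁻¹ * y, ?_, ?_⟩
        · rw [ev_invRev]; exact Y.b he hY
        · simp only [P]
          rw [ev_invRev, ev_nil, mul_one, mul_assoc, mul_assoc, mul_assoc]
      | false =>
        simp only [Bool.false_eq_true, if_false, List.mem_cons, List.mem_map, Prod.mk.injEq] at h
        rcases h with ⟨rfl, rfl⟩ | ⟨e, he, rfl, rfl⟩
        · refine ⟨y, ?_, rfl⟩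
          rw [ev_nil, one_mul]
          exact Y.s hY
        · refine ⟨ev hg e.1 * y, Y.a he hY, ?_⟩
          simp only [P]
          rw [ev_nil, mul_one, mul_assoc, mul_assoc, mul_assoc]

theorem run_sem {c0 : Fin k} {ι : FreeGroup (Fin r) →* H} {t : Fin k → H}
    (hV : VF nx em hg c0 ι t) {p q : St m k r} {L : Wd r} {g : GW} (h : Run nx em x p L g q) :
    ∃ y, Y x hg gg p.1 q.1 y (ev gg g) ∧ P hg ι t p * y = ι (mk L) * P hg ι t q := by
  induction h with
  | nil p => exact ⟨1, by rw [ev_nil]; exact Y.refl _, by rw [← one_eq_mk, map_one]; simp⟩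
  | @eps p p' q L g g' h _ ih =>
    obtain ⟨y, h1, h2⟩ := ih
    obtain ⟨y', h3, h4⟩ := succs_sem hV h h1
    exact ⟨y', by rw [ev_append]; exact h3, by rw [h4, h2]⟩
  | @read b c l a w q L g _ ih =>
    obtain ⟨y, h1, h2⟩ := ih
    refine ⟨y, h1, ?_⟩
    have e1 : P hg ι t (b, c, l, a :: w) = ι (mk [a]) * P hg ι t (b, c, l, w) := by
      simp only [P]
      rw [show mk (a :: w) = mk [a] * mk w from by rw [mul_mk]; rfl, map_mul]
      simp only [mul_assoc]
    have e2 : mk (a :: L) = mk [a] * mk L := by rw [mul_mk]; rfl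
    rw [e1, e2, map_mul, mul_assoc, h2, mul_assoc]

/-! ### Runs from products -/

theorem read_all (b : Bool) (c : Fin k) (l : Wd m) : ∀ w : Wd r,
    Run nx em x (b, c, l, w) w [] (b, c, l, []) := by
  intro w
  induction w with
  | nil => exact Run.nil _
  | cons a w ih => exact Run.read ih

theorem proc {c0 : Fin k} {ι : FreeGroup (Fin r) →* H} {t : Fin k → H}
    (hV : VF nx em hg c0 ι t) (b : Bool) : ∀ (l : Wd m) (c : Fin k),
    ∃ L c', Run nx em x (b, c, l, []) L [] (b, c', [], []) ∧ t c * ev hg l = ι (mk L) * t c' := by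
  intro l
  induction l with
  | nil => intro c; exact ⟨[], c, Run.nil _, by rw [ev_nil, ← one_eq_mk, map_one]; simp⟩
  | cons a l ih =>
    intro c
    obtain ⟨L, c', h1, h2⟩ := ih (nx c a)
    refine ⟨em c a ++ L, c', ?_, ?_⟩
    · have h3 : (([] : GW), ((b, nx c a, l, em c a) : St m k r)) ∈
          succs nx em x ((b, c, a :: l, []) : St m k r) := by
        simp [succs]
      exact Run.eps h3 ((read_all b (nx c a) l (em c a)).trans h1)
    · rw [ev_cons, ← mul_assoc, hV.step, mul_assoc, h2, ← mul_mk, map_mul, mul_assoc]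

theorem proc_u {c0 : Fin k} {ι : FreeGroup (Fin r) →* H} {t : Fin k → H}
    (hV : VF nx em hg c0 ι t) : ∀ (u : List (Wd m × GW)), (∀ e ∈ u, e ∈ x) → ∀ c : Fin k,
    ∃ L g c', Run nx em x (false, c, [], []) L g (false, c', [], []) ∧ ev gg g = prG gg u ∧
      t c * prH hg u = ι (mk L) * t c' := by
  intro u
  induction u with
  | nil => intro _ c; exact ⟨[], [], c, Run.nil _, by simp [ev_nil, prG], by
      rw [← one_eq_mk, map_one]; simp [prH]⟩
  | cons e u ih =>
    intro hu c
    obtain ⟨L1, c1, h1, h2⟩ := proc (x := x) hV false e.1 c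
    obtain ⟨L2, g, c2, h3, h4, h5⟩ := ih (fun e' he' => hu e' (List.mem_cons_of_mem _ he')) c1
    have h6 : (e.2, ((false, c, e.1, []) : St m k r)) ∈
        succs nx em x ((false, c, [], []) : St m k r) := by
      simp only [succs, Bool.false_eq_true, if_false, List.mem_cons, List.mem_map]
      exact Or.inr ⟨e, hu e (List.mem_cons_self ..), rfl⟩
    refine ⟨L1 ++ L2, e.2 ++ ([] ++ g), c2, Run.eps h6 (h1.trans h3), ?_, ?_⟩
    · rw [List.nil_append, ev_append, h4]
      simp [prG]
    · have : prH hg (e :: u) = ev hg e.1 * prH hg u := by simp [prH]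
      rw [this, ← mul_assoc, h2, mul_assoc, h5, ← mul_mk, map_mul, mul_assoc]

theorem proc_v {c0 : Fin k} {ι : FreeGroup (Fin r) →* H} {t : Fin k → H}
    (hV : VF nx em hg c0 ι t) : ∀ (v : List (Wd m × GW)), (∀ e ∈ v, e ∈ x) → ∀ c : Fin k,
    ∃ L g c', Run nx em x (true, c, [], []) L g (true, c', [], []) ∧
      ev gg g = (prG gg v.reverse)⁻¹ ∧ t c * (prH hg v.reverse)⁻¹ = ι (mk L) * t c' := by
  intro v
  induction v with
  | nil => intro _ c; exact ⟨[], [], c, Run.nil _, by simp [ev_nil, prG], by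
      rw [← one_eq_mk, map_one]; simp [prH]⟩
  | cons e v ih =>
    intro hv c
    obtain ⟨L1, c1, h1, h2⟩ := proc (x := x) hV true (invRev e.1) c
    obtain ⟨L2, g, c2, h3, h4, h5⟩ := ih (fun e' he' => hv e' (List.mem_cons_of_mem _ he')) c1
    have h6 : (invRev e.2, ((true, c, invRev e.1, []) : St m k r)) ∈
        succs nx em x ((true, c, [], []) : St m k r) := by
      simp only [succs, if_true, List.mem_map]
      exact ⟨e, hv e (List.mem_cons_self ..), rfl⟩
    refine ⟨L1 ++ L2, invRev e.2 ++ ([] ++ g), c2, Run.eps h6 (h1.trans h3), ?_, ?_⟩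
    · rw [List.nil_append, ev_append, h4, ev_invRev]
      simp [prG]
    · have : (prH hg (e :: v).reverse)⁻¹ = (ev hg e.1)⁻¹ * (prH hg v.reverse)⁻¹ := by simp [prH]
      rw [this, ← mul_assoc, ← ev_invRev, h2, mul_assoc, h5, ← mul_mk, map_mul, mul_assoc]

/-- The relations between the products are described by the trivial runs. -/
theorem nl_iff {c0 : Fin k} {ι : FreeGroup (Fin r) →* H} {t : Fin k → H}
    (hV : VF nx em hg c0 ι t) :
    (∀ g, Nl nx em x (false, c0, [], []) (true, c0, [], []) g → ev gg g = 1) ↔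
      ∀ u v : List (Wd m × GW), (∀ e ∈ u, e ∈ x) → (∀ e ∈ v, e ∈ x) → prH hg u = prH hg v →
        prG gg u = prG gg v := by
  constructor
  · intro h u v hu hv huv
    obtain ⟨L1, g1, c1, h1, h2, h3⟩ := proc_u (gg := gg) hV u hu c0
    obtain ⟨L2, g2, c2, h4, h5, h6⟩ := proc_v (gg := gg) hV v.reverse (by simpa using hv) c1
    rw [List.reverse_reverse] at h5 h6
    have h7 : (([] : GW), ((true, c1, [], []) : St m k r)) ∈
        succs nx em x ((false, c1, [], []) : St m k r) := by
      simp [succs]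
    have h8 := h1.trans (Run.eps h7 h4)
    have h9 : ι (mk (L1 ++ L2)) * t c2 = 1 := by
      rw [← mul_mk, map_mul, mul_assoc, ← h6, ← mul_assoc, ← h3, hV.one, huv]
      simp
    obtain ⟨h10, rfl⟩ := hV.uniq _ _ h9
    have h11 := h _ (nl_of_run _ _ _ _ _ le_rfl h8 (red_of_mk h10))
    rw [ev_append, List.nil_append, h2, h5] at h11
    exact mul_inv_eq_one.1 h11
  · intro h g hg'
    obtain ⟨L, h1, h2⟩ := run_of_nl hg'
    obtain ⟨y, h3, h4⟩ := run_sem (gg := gg) hV h1
    obtain ⟨u, v, h5, h6, h7, h8⟩ := Y_false h3 rfl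
    have h9 : y = 1 := by
      rw [h2, map_one] at h4
      simp only [P] at h4
      rw [ev_nil, ← one_eq_mk, map_one, hV.one] at h4
      simpa using h4
    rw [h9] at h7
    rw [h8, h u v h5 h6 (mul_inv_eq_one.1 h7.symm)]
    simp

end sem

end Pool.Agent.X247.Hp
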