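import Pool.Agent.X247.Hp.Comp
import Pool.Agent.H715R3.MedvA

/-!
# The homomorphism problem: virtually free groups
-/

set_option autoImplicit false
set_option synthInstance.maxSize 4000

namespace Pool.Agent.X247.Hp

open FreeGroup hiding map_mul map_one map_inv
open Pool.Agent.Helper446

/-! ### The data -/

theorem exists_word {A : Type*} {r : ℕ} (e : Fin r → A) : ∀ L : List (A × Bool),
    (∀ a ∈ L, ∃ i, e i = a.1) → ∃ W : Wd r, FreeGroup.map e (mk W) = mk L := by
  intro L
  induction L with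
  | nil => intro _; exact ⟨[], rfl⟩
  | cons a L ih =>
    intro h
    obtain ⟨W, hW⟩ := ih (fun b hb => h b (List.mem_cons_of_mem _ hb))
    obtain ⟨i, hi⟩ := h a (List.mem_cons_self ..)
    refine ⟨(i, a.2) :: W, ?_⟩
    have e1 : (mk ((i, a.2) :: W) : FreeGroup (Fin r)) = mk [(i, a.2)] * mk W := by
      rw [mul_mk]; rfl
    have e2 : (mk (a :: L) : FreeGroup A) = mk [a] * mk L := by rw [mul_mk]; rfl
    rw [e1, e2, _root_.map_mul, hW, map.mk]
    simp only [List.map_cons, List.map_nil, hi]

theorem exists_vf {H : Type*} [Group H] (F : Subgroup H) [F.FiniteIndex] [IsFreeGroup F]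
    {m : ℕ} (hg : Fin m → H) :
    ∃ (k r : ℕ) (nx : Fin k → Fin m × Bool → Fin k) (em : Fin k → Fin m × Bool → Wd r)
      (c0 : Fin k) (ι : FreeGroup (Fin r) →* H) (t : Fin k → H), VF nx em hg c0 ι t := by
  classical
  haveI : Finite (H ⧸ F) := Subgroup.finite_quotient_of_finiteIndex
  obtain ⟨k, ⟨φ⟩⟩ := Finite.exists_equiv_fin (H ⧸ F)
  -- the section
  set f0 : H := Quotient.out ((1 : H) : H ⧸ F) with hf0
  have hf0F : f0 ∈ F := by
    have h1 : ((f0 : H) : H ⧸ F) = ((1 : H) : H ⧸ F) := Quotient.out_eq' _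
    have h2 := QuotientGroup.eq.1 h1
    simpa using h2
  set s : H ⧸ F → H := fun q => Quotient.out q * f0⁻¹ with hs
  have hs1 : ∀ q : H ⧸ F, ((s q : H) : H ⧸ F) = q := by
    intro q
    have h1 : ((Quotient.out q : H) : H ⧸ F) = q := Quotient.out_eq' _
    rw [← h1]
    rw [QuotientGroup.eq, hs]
    simp only
    have h2 : (Quotient.out ((Quotient.out q : H) : H ⧸ F) : H) = Quotient.out q := by rw [h1]
    rw [h2]
    simpa using hf0F
  have hs2 : s ((1 : H) : H ⧸ F) = 1 := by
    rw [hs]
    simp only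
    rw [← hf0, mul_inv_cancel]
  -- the elements
  have hz : ∀ (q : H ⧸ F) (a : Fin m × Bool),
      (s q)⁻¹ * ev hg [a] * s (((ev hg [a])⁻¹ * s q : H) : H ⧸ F) ∈ F := by
    intro q a
    have h1 := hs1 (((ev hg [a])⁻¹ * s q : H) : H ⧸ F)
    have h2 := QuotientGroup.eq.1 h1.symm
    simpa [mul_assoc] using h2
  let z : (H ⧸ F) → Fin m × Bool → F := fun q a => ⟨_, hz q a⟩
  let L : (H ⧸ F) → Fin m × Bool → List (IsFreeGroup.Generators F × Bool) :=
    fun q a => (IsFreeGroup.toFreeGroup F (z q a)).toWord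
  haveI : Fintype (H ⧸ F) := Fintype.ofFinite _
  let B : Finset (IsFreeGroup.Generators F) :=
    Finset.univ.biUnion fun y : (H ⧸ F) × (Fin m × Bool) =>
      ((L y.1 y.2).map Prod.fst).toFinset
  let eB := B.equivFin
  let e : Fin B.card → IsFreeGroup.Generators F := fun i => (eB.symm i : B).1
  have he : Function.Injective e := Subtype.val_injective.comp eB.symm.injective
  have hW : ∀ q a, ∃ W : Wd B.card, FreeGroup.map e (mk W) = mk (L q a) := by
    intro q a
    refine exists_word e (L q a) fun b hb => ?_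
    have hbB : b.1 ∈ B := by
      refine Finset.mem_biUnion.2 ⟨(q, a), Finset.mem_univ _, ?_⟩
      rw [List.mem_toFinset, List.mem_map]
      exact ⟨b, hb, rfl⟩
    refine ⟨eB ⟨b.1, hbB⟩, ?_⟩
    simp [e]
  choose W hW using hW
  let ι : FreeGroup (Fin B.card) →* H :=
    (F.subtype.comp (IsFreeGroup.toFreeGroup F).symm.toMonoidHom).comp (FreeGroup.map e)
  have hι : ∀ w, ι w = ((IsFreeGroup.toFreeGroup F).symm (FreeGroup.map e w) : F) := fun _ => rfl
  refine ⟨k, B.card, fun c a => φ (((ev hg [a])⁻¹ * s (φ.symm c) : H) : H ⧸ F),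
    fun c a => W (φ.symm c) a, φ ((1 : H) : H ⧸ F), ι, fun c => (s (φ.symm c))⁻¹, ?_, ?_, ?_, ?_⟩
  · intro w w' h
    rw [hι, hι] at h
    exact FreeGroup.map_injective he ((IsFreeGroup.toFreeGroup F).symm.injective
      (Subtype.val_injective h))
  · rw [Equiv.symm_apply_apply, hs2, inv_one]
  · intro c a
    rw [hι, hW, Equiv.symm_apply_apply]
    have e1 : (mk (L (φ.symm c) a) : FreeGroup (IsFreeGroup.Generators F)) =
        IsFreeGroup.toFreeGroup F (z (φ.symm c) a) := mk_toWord
    rw [e1, MulEquiv.symm_apply_apply]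
    show _ = (s (φ.symm c))⁻¹ * ev hg [a] * s _ * (s _)⁻¹
    rw [mul_assoc _ (s _) (s _)⁻¹, mul_inv_cancel, mul_one]
  · intro w c h
    have h1 : (s (φ.symm c))⁻¹ ∈ F := by
      have h2 : (s (φ.symm c))⁻¹ = (ι w)⁻¹ := by
        rw [eq_comm, inv_eq_iff_mul_eq_one]
        exact h
      rw [h2]
      exact F.inv_mem (by rw [hι]; exact SetLike.coe_mem _)
    have h3 : ((1 : H) : H ⧸ F) = φ.symm c := by
      rw [← hs1 (φ.symm c), QuotientGroup.eq]
      simpa using h1
    have h4 : c = φ ((1 : H) : H ⧸ F) := by rw [h3, Equiv.apply_symm_apply]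
    refine ⟨?_, h4⟩
    rw [← h3, hs2, inv_one, mul_one] at h
    rw [hι] at h
    have h5 : (IsFreeGroup.toFreeGroup F).symm (FreeGroup.map e w) = 1 := Subtype.val_injective h
    have h6 : FreeGroup.map e w = 1 := by
      apply (IsFreeGroup.toFreeGroup F).symm.injective
      rw [h5, _root_.map_one]
    apply FreeGroup.map_injective he
    rw [h6, _root_.map_one]

/-! ### The word problem -/

section wp

variable {H : Type*} [Group H] {m k r : ℕ} {nx : Fin k → Fin m × Bool → Fin k}
  {em : Fin k → Fin m × Bool → Wd r} {hg : Fin m → H} {c0 : Fin k}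
  {ι : FreeGroup (Fin r) →* H} {t : Fin k → H}

/-- one step of the computation of the normal form -/
def stp (nx : Fin k → Fin m × Bool → Fin k) (em : Fin k → Fin m × Bool → Wd r)
    (s : Wd r × Fin k) (a : Fin m × Bool) : Wd r × Fin k := (s.1 ++ em s.2 a, nx s.2 a)

theorem fold_spec (hV : VF nx em hg c0 ι t) : ∀ (w : Wd m) (s : Wd r × Fin k),
    ι (mk s.1) * t s.2 * ev hg w =
      ι (mk (w.foldl (stp nx em) s).1) * t (w.foldl (stp nx em) s).2 := by
  intro w
  induction w with
  | nil => intro s; rw [ev_nil, mul_one]; rfl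
  | cons a w ih =>
    intro s
    rw [List.foldl_cons, ← ih, ev_cons, ← mul_assoc, mul_assoc (ι (mk s.1)), hV.step]
    simp only [stp]
    rw [← mul_mk, _root_.map_mul]
    simp only [mul_assoc]

theorem ev_eq_one_iff (hV : VF nx em hg c0 ι t) (w : Wd m) : ev hg w = 1 ↔
    reduce (w.foldl (stp nx em) ([], c0)).1 = [] ∧ (w.foldl (stp nx em) ([], c0)).2 = c0 := by
  have h := fold_spec hV w ([], c0)
  simp only at h
  rw [← one_eq_mk, _root_.map_one, one_mul, hV.one, one_mul] at h
  rw [h]
  constructor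
  · intro h1
    obtain ⟨h2, h3⟩ := hV.uniq _ _ h1
    refine ⟨?_, h3⟩
    rw [← toWord_mk, h2, toWord_one]
  · rintro ⟨h1, h2⟩
    rw [h2, hV.one, mul_one]
    have : (mk (w.foldl (stp nx em) ([], c0)).1 : FreeGroup (Fin r)) = 1 := by
      rw [← toWord_inj, toWord_mk, h1, toWord_one]
    rw [this, _root_.map_one]

theorem cp_evH (hV : VF nx em hg c0 ι t) : ComputablePred fun w : Wd m => ev hg w = 1 := by
  have hnx : Primrec fun y : Fin k × (Fin m × Bool) => nx y.1 y.2 := Primrec.dom_finite _
  have hem : Primrec fun y : Fin k × (Fin m × Bool) => em y.1 y.2 := Primrec.dom_finite _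
  have hstp : Computable₂ fun (_ : Wd m) (y : (Wd r × Fin k) × (Fin m × Bool)) =>
      stp nx em y.1 y.2 := by
    have h5 : Computable fun q : Wd m × ((Wd r × Fin k) × (Fin m × Bool)) =>
        (q.2.1.2, q.2.2) := (Computable.snd.comp (Computable.fst.comp Computable.snd)).pair
      (Computable.snd.comp Computable.snd)
    refine Computable.pair (Computable.list_append.comp
      (Computable.fst.comp (Computable.fst.comp Computable.snd)) (hem.to_comp.comp h5))
      (hnx.to_comp.comp h5)
  have hf : Computable fun w : Wd m => w.foldl (stp nx em) ([], c0) :=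
    RE.list_foldl (f := fun w : Wd m => w) (g := fun _ => (([], c0) : Wd r × Fin k))
      Computable.id (Computable.const _) hstp
  have h1 : ComputablePred fun w : Wd m =>
      (reduce (w.foldl (stp nx em) ([], c0)).1, (w.foldl (stp nx em) ([], c0)).2) =
        (([], c0) : Wd r × Fin k) :=
    RE.cp_eq ((Pool.Agent.H715R3.Medv.reduce_primrec.to_comp.comp (Computable.fst.comp hf)).pair
      (Computable.snd.comp hf)) (Computable.const _)
  refine h1.of_eq fun w => ?_
  rw [Prod.mk.injEq]
  exact (ev_eq_one_iff hV w).symm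

end wp

/-! ### Both sides -/

section both

variable {H G : Type*} [Group H] [Group G] {m : ℕ}

theorem prH_eq (hg : Fin m → H) (u : List (Wd m × GW)) :
    prH hg u = ev hg (u.flatMap Prod.fst) := by
  induction u with
  | nil => simp [prH, ev_nil]
  | cons e u ih =>
    rw [List.flatMap_cons, ev_append, ← ih]
    simp [prH]

theorem prG_eq (gg : ℕ → G) (u : List (Wd m × GW)) :
    prG gg u = ev gg (u.flatMap Prod.snd) := by
  induction u with
  | nil => simp [prG, ev_nil]
  | cons e u ih =>
    rw [List.flatMap_cons, ev_append, ← ih]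
    simp [prG]

/-- every relation between the first components holds for the second components -/
def Rel (hg : Fin m → H) (gg : ℕ → G) (x : List (Wd m × GW)) : Prop :=
  ∀ u v : List (Wd m × GW), (∀ e ∈ u, e ∈ x) → (∀ e ∈ v, e ∈ x) → prH hg u = prH hg v →
    prG gg u = prG gg v

theorem cp_rel (F : Subgroup H) [F.FiniteIndex] [IsFreeGroup F] (hg : Fin m → H) (gg : ℕ → G)
    (hwp : ComputablePred fun w : GW => ev gg w = 1) :
    ComputablePred fun x : List (Wd m × GW) => Rel hg gg x := by
  obtain ⟨k, r, nx, em, c0, ι, t, hV⟩ := exists_vf F hg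
  refine RE.cp_of_re ?_ ?_
  · refine (re_nl nx em hwp c0).of_eq fun x => ?_
    exact nl_iff hV
  · have hH := cp_evH hV
    have c1 : Computable fun y : (List (Wd m × GW) × List (Wd m × GW)) × List (Wd m × GW) =>
        y.1.1 := Computable.fst.comp Computable.fst
    have c2 : Computable fun y : (List (Wd m × GW) × List (Wd m × GW)) × List (Wd m × GW) =>
        y.1.2 := Computable.snd.comp Computable.fst
    have fl1 : Computable fun u : List (Wd m × GW) => u.flatMap Prod.fst :=
      (Primrec.list_flatMap Primrec.id (Primrec.fst.comp Primrec.snd).to₂).to_comp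
    have fl2 : Computable fun u : List (Wd m × GW) => u.flatMap Prod.snd :=
      (Primrec.list_flatMap Primrec.id (Primrec.snd.comp Primrec.snd).to₂).to_comp
    have h1 : REPred fun x : List (Wd m × GW) => ∃ u v : List (Wd m × GW), (∀ e ∈ u, e ∈ x) ∧
        (∀ e ∈ v, e ∈ x) ∧ ev hg (u.flatMap Prod.fst ++ invRev (v.flatMap Prod.fst)) = 1 ∧
        ¬ ev gg (u.flatMap Prod.snd) = ev gg (v.flatMap Prod.snd) := by
      refine RE.ex (p := fun (x : List (Wd m × GW)) (u : List (Wd m × GW)) =>
        ∃ v : List (Wd m × GW), (∀ e ∈ u, e ∈ x) ∧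
        (∀ e ∈ v, e ∈ x) ∧ ev hg (u.flatMap Prod.fst ++ invRev (v.flatMap Prod.fst)) = 1 ∧
        ¬ ev gg (u.flatMap Prod.snd) = ev gg (v.flatMap Prod.snd)) ?_
      refine RE.ex (p := fun (y : List (Wd m × GW) × List (Wd m × GW)) (v : List (Wd m × GW)) =>
        (∀ e ∈ y.2, e ∈ y.1) ∧
        (∀ e ∈ v, e ∈ y.1) ∧ ev hg (y.2.flatMap Prod.fst ++ invRev (v.flatMap Prod.fst)) = 1 ∧
        ¬ ev gg (y.2.flatMap Prod.snd) = ev gg (v.flatMap Prod.snd)) ?_
      refine RE.and ?_ (RE.and ?_ (RE.and ?_ ?_))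
      · refine RE.all_mem (p := fun (y : (List (Wd m × GW) × List (Wd m × GW)) ×
          List (Wd m × GW)) (e : Wd m × GW) => e ∈ y.1.1) ?_ c2
        exact RE.mem_list Computable.snd (c1.comp Computable.fst)
      · refine RE.all_mem (p := fun (y : (List (Wd m × GW) × List (Wd m × GW)) ×
          List (Wd m × GW)) (e : Wd m × GW) => e ∈ y.1.1) ?_ Computable.snd
        exact RE.mem_list Computable.snd (c1.comp Computable.fst)
      · exact (RE.cp_comp hH (Computable.list_append.comp (fl1.comp c2)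
          (primrec_invRev.to_comp.comp (fl1.comp Computable.snd)))).to_re
      · exact re_nev hwp (fl2.comp c2) (fl2.comp Computable.snd)
    refine h1.of_eq fun x => ?_
    unfold Rel
    constructor
    · rintro ⟨u, v, h2, h3, h4, h5⟩ h
      rw [ev_append, ev_invRev, mul_inv_eq_one, ← prH_eq, ← prH_eq] at h4
      rw [← prG_eq, ← prG_eq] at h5
      exact h5 (h u v h2 h3 h4)
    · intro h
      push_neg at h
      obtain ⟨u, v, h2, h3, h4, h5⟩ := h
      refine ⟨u, v, h2, h3, ?_, ?_⟩
      · rw [ev_append, ev_invRev, mul_inv_eq_one, ← prH_eq, ← prH_eq]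
        exact h4
      · rw [← prG_eq, ← prG_eq]
        exact h5

end both

end Pool.Agent.X247.Hp
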